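import Pool.Agent.X172.GR.Stm

/-! Part LEV of project GR: levels of two different flips. -/

namespace Pool.Agent.X228.GR

open Pool.Agent.X172.GR

theorem Rd_type {T : ℕ → Fin 6} : ∀ (w : List Ltr) (i : ℕ), Rd T i w →
    ∀ j, j < w.length → (w.getD j (0, false)).1 = T (i + j)
  | [], _, _, j, hj => by simp at hj
  | a :: w, i, h, 0, _ => by simpa using h.1
  | a :: w, i, h, j + 1, hj => by
    have := Rd_type w (i + 1) h.2 j (by simpa using hj)
    rw [show i + (j + 1) = i + 1 + j by omega, ← this]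
    simp

theorem idx_aux {n : ℕ} {T : ℕ → Fin 6} (hT : Ty n T) {z : List Ltr} (hz : z.length = n)
    {k k' : ℕ} (hk : k < k') (hk' : k' < n) (h : Rd T k z) (h' : Rd T k' z) : False := by
  have e1 := Rd_type z k h (n - 1 - k) (by omega)
  have e2 := Rd_type z k' h' (n - 1 - k) (by omega)
  rw [e1] at e2
  have h4 : T (k + (n - 1 - k)) = 4 := (hT.hash _).2 ⟨1, by omega⟩
  rw [h4] at e2
  obtain ⟨c, hc⟩ := (hT.hash _).1 e2.symm
  have : k' - k + n = n * c := by omega
  rcases c with _ | _ | c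
  · omega
  · omega
  · rw [show n * (c + 1 + 1) = n * c + 2 * n by ring] at this
    omega

theorem idx {n : ℕ} {T : ℕ → Fin 6} (hT : Ty n T) {z : List Ltr} (hz : z.length = n)
    {k k' : ℕ} (hk : k < n) (hk' : k' < n) (h : Rd T k z) (h' : Rd T k' z) : k = k' := by
  rcases lt_trichotomy k k' with h1 | h1 | h1
  · exact (idx_aux hT hz h1 hk' h h').elim
  · exact h1
  · exact (idx_aux hT hz h1 hk h' h).elim

theorem ff {a b : Bool} (h : a = true) (h' : a = b) : b = true := by rw [← h', h]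

/-- Both flips are of the second kind, index `0`. -/
theorem two0 {n : ℕ} {T : ℕ → Fin 6} {z z1 z1' : List Ltr} {a a' : ℕ}
    (hz : z.length = n) (hz1 : z1.length = n) (hz1' : z1'.length = n)
    (r : Rd T 0 z) (r1 : Rd T 0 z1) (r1' : Rd T 0 z1')
    (ha : 1 ≤ a) (haa : a < a') (ha' : a' < n - 1)
    (c2 : ∀ j, a < j → j < n - 1 → bit z j = false)
    (c1' : ∀ j, 1 ≤ j → j < a' → bit z j = true)
    (d : bit z a ≠ bit z1 a) (e : ∀ j, j ≠ a → bit z j = bit z1 j)
    (d' : bit z a' ≠ bit z1' a') (e' : ∀ j, j ≠ a' → bit z j = bit z1' j) :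
    ∃ u, Lev0 n T z u ∧ (u < n - 1 → Lev0 n T z1' (u + 1)) ∧ (1 < u → Lev0 n T z1 (u - 1)) := by
  have h1 : a' = a + 1 := by
    by_contra hne
    have f1 := c2 (a + 1) (by omega) (by omega)
    have f2 := c1' (a + 1) (by omega) (by omega)
    rw [f1] at f2
    exact absurd f2 (by decide)
  subst h1
  refine ⟨a + 1, ⟨hz, r, by omega, by omega, fun j h1 h2 => c1' j h1 h2,
    fun j h1 h2 => c2 j (by omega) h2⟩, fun _ => ⟨hz1', r1', by omega, by omega, ?_, ?_⟩,
    fun _ => ⟨hz1, r1, by omega, by omega, ?_, ?_⟩⟩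
  · intro j h1 h2
    rcases Nat.lt_or_ge j (a + 1) with h3 | h3
    · rw [← e' j (by omega)]; exact c1' j h1 h3
    · obtain rfl : j = a + 1 := by omega
      rw [c2 (a + 1) (by omega) (by omega)] at d'
      cases hb : bit z1' (a + 1)
      · rw [hb] at d'; exact absurd rfl d'
      · rfl
  · intro j h1 h2
    rw [← e' j (by omega)]
    exact c2 j (by omega) h2
  · intro j h1 h2
    rw [← e j (by omega)]
    exact c1' j h1 (by omega)
  · intro j h1 h2
    rcases Nat.lt_or_ge a j with h3 | h3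
    · rw [← e j (by omega)]; exact c2 j h3 h2
    · obtain rfl : j = a := by omega
      rw [c1' j ha (by omega)] at d
      cases hb : bit z1 j
      · rfl
      · rw [hb] at d; exact absurd rfl d

/-- Both flips are of the second kind, index `k > 0`. -/
theorem two1 {n : ℕ} {T : ℕ → Fin 6} {z z1 : List Ltr} {a a' k : ℕ}
    (hk0 : 0 < k) (hk : k < n) (hz : z.length = n) (hz1 : z1.length = n)
    (r : Rd T k z) (r1 : Rd T k z1) (haa : a < a') (ha' : a' + k < n - 1)
    (c2 : ∀ j, a < j → j + k < n - 1 → bit z j = false)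
    (c1' : ∀ j, j < a' → bit z j = true)
    (d : bit z a ≠ bit z1 a) (e : ∀ j, j ≠ a → bit z j = bit z1 j) :
    ∃ u, Lev1 n T z (u + 1) ∧ Lev1 n T z1 u := by
  have h1 : a' = a + 1 := by
    by_contra hne
    have f1 := c2 (a + 1) (by omega) (by omega)
    have f2 := c1' (a + 1) (by omega)
    rw [f1] at f2
    exact absurd f2 (by decide)
  subst h1
  refine ⟨a, ⟨hz, k, hk0, hk, r, by omega, c1', fun j h1 h2 => c2 j (by omega) h2⟩,
    ⟨hz1, k, hk0, hk, r1, by omega, ?_, ?_⟩⟩
  · intro j h1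
    rw [← e j (by omega)]
    exact c1' j (by omega)
  · intro j h1 h2
    rcases Nat.lt_or_ge a j with h3 | h3
    · rw [← e j (by omega)]; exact c2 j h3 h2
    · obtain rfl : j = a := by omega
      rw [c1' j (by omega)] at d
      cases hb : bit z1 j
      · rfl
      · rw [hb] at d; exact absurd rfl d

/-- One flip at `0`, the other of the second kind, index `0`. -/
theorem mix {n : ℕ} (hn : 4 ≤ n) {T : ℕ → Fin 6} {z z1' : List Ltr} {a' : ℕ}
    (hz : z.length = n) (hz1' : z1'.length = n) (r : Rd T 0 z) (r1' : Rd T 0 z1')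
    (c : (∀ j, 1 ≤ j → j < n - 1 → bit z j = true) ∨ ∀ j, 1 ≤ j → j < n - 1 → bit z j = false)
    (ha : 1 ≤ a') (ha' : a' < n - 1)
    (c1' : ∀ j, 1 ≤ j → j < a' → bit z j = true)
    (c2' : ∀ j, a' < j → j < n - 1 → bit z j = false)
    (d' : bit z a' ≠ bit z1' a') (e' : ∀ j, j ≠ a' → bit z j = bit z1' j) :
    ∃ u, Lev0 n T z u ∧ (u < n - 1 → Lev0 n T z1' (u + 1)) ∧ (1 < u → Lev0 n T z1' (u - 1)) := by
  rcases c with c | c
  · have h1 : a' = n - 2 := by
      by_contra hne
      have f1 := c2' (a' + 1) (by omega) (by omega)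
      have f2 := c (a' + 1) (by omega) (by omega)
      rw [f1] at f2
      exact absurd f2 (by decide)
    subst h1
    refine ⟨n - 1, ⟨hz, r, by omega, le_rfl, c, fun j h1 h2 => by omega⟩, fun h => by omega,
      fun _ => ⟨hz1', r1', by omega, by omega, ?_, ?_⟩⟩
    · intro j h1 h2
      rw [← e' j (by omega)]
      exact c j h1 (by omega)
    · intro j h1 h2
      obtain rfl : j = n - 2 := by omega
      rw [c (n - 2) (by omega) (by omega)] at d'
      cases hb : bit z1' (n - 2)
      · rfl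
      · rw [hb] at d'; exact absurd rfl d'
  · have h1 : a' = 1 := by
      by_contra hne
      have f1 := c1' 1 le_rfl (by omega)
      have f2 := c 1 le_rfl (by omega)
      rw [f1] at f2
      exact absurd f2 (by decide)
    subst h1
    refine ⟨1, ⟨hz, r, le_rfl, by omega, fun j h1 h2 => by omega, c⟩,
      fun _ => ⟨hz1', r1', by omega, by omega, ?_, ?_⟩, fun h => by omega⟩
    · intro j h1 h2
      obtain rfl : j = 1 := by omega
      rw [c 1 le_rfl (by omega)] at d'
      cases hb : bit z1' 1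
      · rw [hb] at d'; exact absurd rfl d'
      · rfl
    · intro j h1 h2
      rw [← e' j (by omega)]
      exact c j (by omega) h2

theorem lev : S_LEV := by
  intro n T hn hT
  refine ⟨?_, ?_, ?_, ?_⟩
  · rintro z u u' ⟨_, _, h1, h2, h3, h4⟩ ⟨_, _, h1', h2', h3', h4'⟩
    rcases lt_trichotomy u u' with h | h | h
    · have f1 := h3' u h1 h
      have f2 := h4 u le_rfl (by omega)
      rw [f1] at f2; exact absurd f2 (by decide)
    · exact h
    · have f1 := h3 u' h1' h
      have f2 := h4' u' le_rfl (by omega)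
      rw [f1] at f2; exact absurd f2 (by decide)
  · rintro z u u' ⟨hz, k, h1, h2, r, h3, h4, h5⟩ ⟨_, k', h1', h2', r', h3', h4', h5'⟩
    obtain rfl := idx hT hz h2 h2' r r'
    rcases lt_trichotomy u u' with h | h | h
    · have f1 := h4' u h
      have f2 := h5 u le_rfl (by omega)
      rw [f1] at f2; exact absurd f2 (by decide)
    · exact h
    · have f1 := h4 u' h
      have f2 := h5' u' le_rfl (by omega)
      rw [f1] at f2; exact absurd f2 (by decide)
  · rintro z u u' ⟨⟨hz, r, _⟩, _, k, h1, h2, r', _⟩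
    have := idx hT hz (show 0 < n by omega) h2 r r'
    omega
  · rintro z z1 z1' m m' ⟨hz, hz1, k, hk, r, r1, C, d, e⟩ ⟨_, hz1', k', hk', r', r1', C', d', e'⟩
      hm hm' hmm
    obtain rfl := idx hT hz hk hk' r r'
    have hne : (n - m) % n ≠ (n - m') % n := by
      rcases Nat.eq_zero_or_pos m with h1 | h1 <;> rcases Nat.eq_zero_or_pos m' with h2 | h2
      · omega
      · rw [h1, Nat.sub_zero, Nat.mod_self, Nat.mod_eq_of_lt (by omega)]; omega
      · rw [h2, Nat.sub_zero, Nat.mod_self, Nat.mod_eq_of_lt (by omega)]; omega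
      · rw [Nat.mod_eq_of_lt (by omega), Nat.mod_eq_of_lt (by omega)]; omega
    generalize (n - m) % n = a at *
    generalize (n - m') % n = a' at *
    rcases Nat.eq_zero_or_pos k with hk0 | hk0
    · subst hk0
      left
      rcases C with ⟨_, ha, C⟩ | ⟨c0, c1, c2, c3⟩ <;> rcases C' with ⟨_, ha', C'⟩ | ⟨c0', c1', c2', c3'⟩
      · omega
      · simp only [lo, if_true, add_zero] at c0' c1' c2' c3'
        obtain ⟨u, h1, h2, h3⟩ := mix hn hz hz1' r r1' C c0' c1' c2' c3' d' e'
        exact ⟨u, h1, fun h => Or.inr (h2 h), fun h => Or.inr (h3 h)⟩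
      · simp only [lo, if_true, add_zero] at c0 c1 c2 c3
        obtain ⟨u, h1, h2, h3⟩ := mix hn hz hz1 r r1 C' c0 c1 c2 c3 d e
        exact ⟨u, h1, fun h => Or.inl (h2 h), fun h => Or.inl (h3 h)⟩
      · simp only [lo, if_true, add_zero] at c0 c1 c2 c3 c0' c1' c2' c3'
        rcases Nat.lt_or_ge a a' with h | h
        · obtain ⟨u, h1, h2, h3⟩ := two0 hz hz1 hz1' r r1 r1' c0 h c1' c3 c2' d e d' e'
          exact ⟨u, h1, fun h => Or.inr (h2 h), fun h => Or.inl (h3 h)⟩
        · obtain ⟨u, h1, h2, h3⟩ := two0 hz hz1' hz1 r r1' r1 c0' (by omega) c1 c3' c2 d' e' d e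
          exact ⟨u, h1, fun h => Or.inl (h2 h), fun h => Or.inr (h3 h)⟩
    · right
      have hlo : lo k = 0 := by simp [lo]; omega
      rcases C with ⟨h0, _⟩ | ⟨c0, c1, c2, c3⟩
      · omega
      rcases C' with ⟨h0, _⟩ | ⟨c0', c1', c2', c3'⟩
      · omega
      rw [hlo] at c0 c2 c0' c2'
      rcases Nat.lt_or_ge a a' with h | h
      · obtain ⟨u, h1, h2⟩ := two1 hk0 hk hz hz1 r r1 h c1' c3 (fun j hj => c2' j (Nat.zero_le _) hj) d e
        exact ⟨u, h1, Or.inl h2⟩
      · obtain ⟨u, h1, h2⟩ := two1 hk0 hk hz hz1' r r1' (show a' < a by omega) c1 c3'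
          (fun j hj => c2 j (Nat.zero_le _) hj) d' e'
        exact ⟨u, h1, Or.inr h2⟩

end Pool.Agent.X228.GR
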